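import Mathlib

namespace Pool.Agent.Results.MP_9d720b_co.Full
open Function

/-- `T_A(x) = (A x)^{[1/d]}` for a tensor of order `d + 1`; `A i I = a_{i I_1 ⋯ I_d}` -/
noncomputable def T {n d : ℕ} (A : Fin n → (Fin d → Fin n) → ℝ) (x : Fin n → ℝ) : Fin n → ℝ :=
  fun i => (∑ I : Fin d → Fin n, A i I * ∏ t, x (I t)) ^ ((1 : ℝ) / d)

/-- `T_A^r(x) > 0` for every nonzero `x ≥ 0` -/
def Good {n d : ℕ} (A : Fin n → (Fin d → Fin n) → ℝ) (r : ℕ) : Prop :=
  ∀ x : Fin n → ℝ, 0 ≤ x → x ≠ 0 → ∀ i, 0 < (T A)^[r] x i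

/-- the nonzero entries of the Wielandt matrix, with index `i + 1` labelled `i` -/
def W {n : ℕ} (i j : ZMod n) : Prop := j = i + 1 ∨ (i = -1 ∧ j = 1)

/-- the cyclic interval `{-k - c : 0 ≤ c, c (n-1) < k}` -/
def S (n k : ℕ) : Set (ZMod n) := {i | ∃ c : ℕ, c * (n - 1) < k ∧ i = -((k : ZMod n) + c)}

section comb
variable {α : Type} {F : Set α → Set α}

def Wk (F : Set α → Set α) (a : ℕ) (x y : α) : Prop := y ∈ F^[a] {x}

theorem Wk.sub (hF : Monotone F) {a x y} (h : Wk F a x y) (b : ℕ) :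
    F^[b] {y} ⊆ F^[a + b] {x} := by
  rw [add_comm, iterate_add_apply]
  exact hF.iterate b (Set.singleton_subset_iff.2 h)

theorem Wk.trans (hF : Monotone F) {a b x y z} (h : Wk F a x y) (k : Wk F b y z) :
    Wk F (a + b) x z := h.sub hF b k

theorem wk0 (x : α) : Wk F 0 x x := rfl

theorem stay (hF : Monotone F) (hU : F Set.univ = Set.univ) {a b : ℕ} {X} (h : F^[a] X = Set.univ)
    (ab : a ≤ b) : F^[b] X = Set.univ := by
  obtain ⟨c, rfl⟩ := Nat.exists_eq_add_of_le' ab
  rw [iterate_add_apply, h, iterate_fixed hU]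

theorem cyc [Fintype α] (hF : Monotone F) (hU : F Set.univ = Set.univ) {s M : ℕ} {x : α}
    (hs : 0 < s) (h : Wk F s x x) (hM : F^[M] {x} = Set.univ) :
    F^[s * (Fintype.card α - 1)] {x} = Set.univ := by
  have mono : ∀ t, F^[s * t] {x} ⊆ F^[s * (t + 1)] {x} := fun t => by
    rw [mul_add, mul_one, add_comm]; exact h.sub hF _
  have key : ∀ t, F^[s * t] {x} = Set.univ ∨ t + 1 ≤ (F^[s * t] {x}).ncard := by
    intro t
    induction t with
    | zero => right; simp
    | succ t ih =>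
      rcases ih with ih | ih
      · exact Or.inl (stay hF hU ih (by nlinarith))
      by_cases e : F^[s * (t + 1)] {x} = F^[s * t] {x}
      · left
        have fx : F^[s] (F^[s * t] {x}) = F^[s * t] {x} := by
          rw [← iterate_add_apply, add_comm, ← mul_add_one, e]
        have := stay hF hU hM (show M ≤ s * M + s * t by nlinarith)
        rw [iterate_add_apply, iterate_mul, iterate_fixed fx] at this
        rw [e, this]
      · right
        have := Set.ncard_lt_ncard (ssubset_of_subset_of_ne (mono t) (Ne.symm e)) (Set.toFinite _)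
        omega
  rcases key (Fintype.card α - 1) with k | k
  · exact k
  · refine Set.eq_of_subset_of_ncard_le (Set.subset_univ _) ?_ (Set.toFinite _)
    rw [Set.ncard_univ, Nat.card_eq_fintype_card]
    omega

theorem struct [Fintype α] {n : ℕ} (hc : Fintype.card α = n) (hn : 2 ≤ n) (hF : Monotone F)
    (h0 : F ∅ = ∅) {M : ℕ} (hM : ∀ x, F^[M + 1] {x} = Set.univ) {v : α}
    (hv : F^[(n - 1) ^ 2] {v} ≠ Set.univ) :
    ∃ p : ℕ → α, p 0 = v ∧ (∀ i < n, ∀ j < n, p i = p j → i = j) ∧ (∀ x, ∃ i < n, p i = x) ∧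
      ∀ i < n, ∀ j < n, p j ∈ F {p i} ↔ (j = i + 1 ∨ (i + 1 = n ∧ j ≤ 1)) := by
  have hU : F Set.univ = Set.univ := by
    have := hM v
    rw [iterate_succ_apply'] at this
    exact Set.eq_univ_of_univ_subset (this.ge.trans (hF (Set.subset_univ _)))
  have ex : ∀ x, ∃ y, y ∈ F {x} := fun x => by
    by_contra c
    have e : F {x} = ∅ := Set.eq_empty_of_forall_notMem fun y hy => c ⟨y, hy⟩
    have := hM x
    rw [iterate_succ_apply, e, iterate_fixed h0] at this
    exact (this ▸ Set.mem_univ x : x ∈ (∅ : Set α))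
  choose g hg using ex
  have K : ∀ a s u, Wk F a v u → Wk F s u u → 0 < s → a + s ≤ n → a + s = n ∧ a ≤ 1 := by
    intro a s u h1 h2 hs hl
    have := Set.eq_univ_of_univ_subset (cyc hF hU hs h2 (hM u) ▸ h1.sub hF (s * (Fintype.card α - 1)))
    rw [hc] at this
    have lt : (n - 1) ^ 2 < a + s * (n - 1) := lt_of_not_ge fun c => hv (stay hF hU this c)
    obtain ⟨m, rfl⟩ : ∃ m, n = m + 1 := ⟨n - 1, by omega⟩
    simp only [add_tsub_cancel_right] at lt
    by_cases c : s + 1 ≤ m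
    · obtain ⟨e, rfl⟩ := Nat.exists_eq_add_of_le c
      nlinarith
    · rcases (show s = m ∨ s = m + 1 by omega) with rfl | rfl
      · have : 0 < a := by nlinarith
        omega
      · omega
  obtain ⟨p, hp⟩ : ∃ p : ℕ → α, p = fun t => g^[t] v := ⟨_, rfl⟩
  have p0 : p 0 = v := by rw [hp]; rfl
  have ps : ∀ t, p (t + 1) = g (p t) := fun t => by rw [hp]; exact iterate_succ_apply' _ _ _
  have w : ∀ i l, Wk F l (p i) (p (i + l)) := fun i l => by
    induction l with
    | zero => exact wk0 _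
    | succ l ih => exact ih.trans hF (show Wk F 1 _ _ from by rw [← add_assoc, ps]; exact hg _)
  have w' : ∀ i j, i ≤ j → Wk F (j - i) (p i) (p j) := fun i j h => by
    simpa [Nat.add_sub_cancel' h] using w i (j - i)
  have wv : ∀ i, Wk F i v (p i) := fun i => by simpa [p0] using w 0 i
  have rep : ∀ i j, i < j → j ≤ n → p i = p j → j = n ∧ i ≤ 1 := fun i j h1 h2 e => by
    have := K i (j - i) (p i) (wv i) (by have := w' i j h1.le; rwa [← e] at this) (by omega) (by omega)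
    omega
  have inj : ∀ i < n, ∀ j < n, p i = p j → i = j := fun i hi j hj e => by
    rcases lt_trichotomy i j with h | h | h
    · have := rep i j h hj.le e; omega
    · exact h
    · have := rep j i h hi.le e.symm; omega
  have sur : ∀ x, ∃ i < n, p i = x := fun x => by
    have : Bijective fun i : Fin n => p i := (Fintype.bijective_iff_injective_and_card _).2
      ⟨fun i j e => Fin.ext (inj _ i.2 _ j.2 e), by simp [hc]⟩
    obtain ⟨i, hi⟩ := this.2 x
    exact ⟨i, i.2, hi⟩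
  have back : ∀ i < n, ∀ j ≤ i, p j ∈ F {p i} → i + 1 = n ∧ j ≤ 1 := fun i hi j hj e => by
    have := K j (i - j + 1) (p j) (wv j) ((w' j i hj).trans hF (show Wk F 1 _ _ from e))
      (by omega) (by omega)
    omega
  have fwd : ∀ c i j, c ≤ i → i + 1 < j → j < n → p c ∈ F {p (n - 1)} → p j ∉ F {p i} :=
    fun c i j h1 h2 h3 e e' => by
    have := K c _ (p c) (wv c) ((((w' c i h1).trans hF (show Wk F 1 _ _ from e')).trans hF
      (w' j (n - 1) (by omega))).trans hF (show Wk F 1 _ _ from e)) (by omega) (by omega)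
    omega
  have odd : ∃ t, ∃ u ∈ F {p (t + 1)}, u ≠ g (p (t + 1)) := by
    by_contra c
    push Not at c
    have : ∀ t, F^[t] {p 1} ⊆ {p (t + 1)} := fun t => by
      induction t with
      | zero => simp
      | succ t ih =>
        rw [iterate_succ_apply']
        exact fun u hu => (c t u (hF ih hu)).trans (ps _).symm
    have h1 := this (M + 1)
    rw [hM] at h1
    have := inj 0 (by omega) 1 (by omega) ((h1 (Set.mem_univ _)).trans (h1 (Set.mem_univ _)).symm)
    omega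
  have last : p n ∈ F {p (n - 1)} := by
    have := hg (p (n - 1)); rwa [← ps, show n - 1 + 1 = n by omega] at this
  obtain ⟨c, hc1, hc2⟩ := sur (p n)
  have c1 := (rep c n hc1 le_rfl hc2).2
  have both : p 0 ∈ F {p (n - 1)} ∧ p 1 ∈ F {p (n - 1)} := by
    obtain ⟨t, u, hu, ne⟩ := odd
    obtain ⟨j, hj, rfl⟩ := sur u
    have : ∃ i < n, c ≤ i ∧ p i = p (t + 1) := by
      clear hu ne
      induction t with
      | zero => exact ⟨1, by omega, c1, rfl⟩
      | succ t ih =>
        obtain ⟨i, a, b, e⟩ := ih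
        by_cases l : i + 1 < n
        · exact ⟨i + 1, l, by omega, by rw [ps, e, ← ps]⟩
        · exact ⟨c, hc1, le_rfl, by rw [hc2, ps (t + 1), ← e, ← ps]; congr 1; omega⟩
    obtain ⟨i, a, b, e⟩ := this
    rw [← e] at hu ne
    rw [← ps] at ne
    have ji : j ≤ i := by
      by_contra l
      exact fwd c i j b (by by_contra l'; exact ne (by congr 1; omega)) hj (hc2 ▸ last) hu
    obtain ⟨e1, e2⟩ := back i a j ji hu
    have jc : j ≠ c := fun e => ne (by rw [e, hc2, e1])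
    rw [show i = n - 1 by omega] at hu
    rw [← hc2] at last
    rcases (show (j = 0 ∧ c = 1) ∨ (j = 1 ∧ c = 0) by omega) with ⟨rfl, rfl⟩ | ⟨rfl, rfl⟩
    · exact ⟨hu, last⟩
    · exact ⟨last, hu⟩
  refine ⟨p, p0, inj, sur, fun i hi j hj => ⟨fun e => ?_, ?_⟩⟩
  · by_cases l : j ≤ i
    · exact Or.inr (back i hi j l e)
    · left
      by_contra l'
      exact fwd 0 i j (by omega) (by omega) hj both.1 e
  · rintro (rfl | ⟨e, l⟩)
    · rw [ps]; exact hg _
    · rw [show i = n - 1 by omega]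
      rcases (show j = 0 ∨ j = 1 by omega) with rfl | rfl
      · exact both.1
      · exact both.2

theorem label {n : ℕ} [NeZero n] (hn : 2 ≤ n) {E : Fin n → Fin n → Prop} {p : ℕ → Fin n}
    (inj : ∀ i < n, ∀ j < n, p i = p j → i = j)
    (h : ∀ i < n, ∀ j < n, E (p i) (p j) ↔ (j = i + 1 ∨ (i + 1 = n ∧ j ≤ 1))) :
    ∃ σ : ZMod n ≃ Fin n, σ 0 = p 0 ∧ ∀ i j, E (σ j) (σ i) ↔ W i j := by
  have : Fact (1 < n) := ⟨hn⟩
  have b : Bijective fun z : ZMod n => p (-z).val := (Fintype.bijective_iff_injective_and_card _).2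
    ⟨fun x y e => neg_injective (ZMod.val_injective n (inj _ (ZMod.val_lt _) _ (ZMod.val_lt _) e)),
      by simp⟩
  refine ⟨Equiv.ofBijective _ b, by simp, fun i j => ?_⟩
  simp only [Equiv.ofBijective_apply]
  rw [h _ (ZMod.val_lt _) _ (ZMod.val_lt _), W]
  obtain ⟨x, rfl⟩ : ∃ x, i = -x := ⟨-i, by simp⟩
  obtain ⟨y, rfl⟩ : ∃ y, j = -y := ⟨-j, by simp⟩
  simp only [neg_neg, neg_inj]
  have hx := ZMod.val_lt x
  have hy := ZMod.val_lt y
  have a1 : -y = -x + 1 ↔ x.val = (y.val + 1) % n := by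
    rw [← ZMod.val_one n, ← ZMod.val_add, (ZMod.val_injective n).eq_iff]
    constructor <;> intro e <;> linear_combination e
  have a2 : x = 1 ↔ x.val = 1 := by rw [← (ZMod.val_injective n).eq_iff, ZMod.val_one]
  have a3 : -y = 1 ↔ (y.val + 1) % n = 0 := by
    rw [← ZMod.val_one n, ← ZMod.val_add, ZMod.val_eq_zero]
    constructor <;> intro e <;> linear_combination -e
  rw [a1, a2, a3]
  by_cases c : y.val + 1 = n
  · rw [c, Nat.mod_self]; omega
  · rw [Nat.mod_eq_of_lt (by omega)]; omega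

section wiel
variable {n : ℕ} [NeZero n] {σ : ZMod n ≃ Fin n} {F : Set (Fin n) → Set (Fin n)}

theorem cast_pred : ((n - 1 : ℕ) : ZMod n) = -1 := by
  rw [Nat.cast_sub (Nat.pos_of_neZero n)]; simp

theorem w1 (hF : Monotone F) (h : ∀ i j, σ i ∈ F {σ j} ↔ W i j) (l : ℕ) (z : ZMod n) :
    Wk F l (σ z) (σ (z - l)) := by
  induction l with
  | zero => simpa using wk0 _
  | succ l ih => exact ih.trans hF (show Wk F 1 _ _ from (h _ _).2 (Or.inl (by push_cast; ring)))

theorem w2 (hn : 2 ≤ n) (hF : Monotone F) (h : ∀ i j, σ i ∈ F {σ j} ↔ W i j) {z : ZMod n}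
    (hz : z ≠ 0) (c : ℕ) : Wk F (c * (n - 1)) (σ z) (σ z) := by
  have one : Wk F (n - 1) (σ z) (σ z) := by
    have p := ZMod.val_lt z
    have q : z.val ≠ 0 := by rwa [Ne, ZMod.val_eq_zero]
    have a := w1 hF h (z.val - 1) z
    have b := w1 hF h (n - 1 - z.val) (-1)
    rw [Nat.cast_sub (by omega), ZMod.natCast_zmod_val] at a b
    rw [cast_pred, show -1 - (-1 - z) = z by ring] at b
    have := (a.trans hF (show Wk F 1 _ (σ (-1)) from (h _ _).2 (Or.inr ⟨rfl, by simp⟩))).trans hF b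
    rwa [show z.val - 1 + 1 + (n - 1 - z.val) = n - 1 by omega] at this
  induction c with
  | zero => simpa using wk0 _
  | succ c ih => rw [add_mul, one_mul]; exact ih.trans hF one

theorem w3 (hn : 2 ≤ n) (hF : Monotone F) (h : ∀ i j, σ i ∈ F {σ j} ↔ W i j) {z : ZMod n}
    {L c : ℕ} (hc : c * (n - 1) ≤ L) (hz : z ≠ 0 ∨ c * (n - 1) < L) :
    Wk F L (σ z) (σ (z - L - c)) := by
  have : Fact (1 < n) := ⟨hn⟩
  obtain ⟨l, rfl⟩ := Nat.exists_eq_add_of_le hc
  have e : z - ((c * (n - 1) + l : ℕ) : ZMod n) - c = z - l := by push_cast [cast_pred]; ring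
  rw [e]
  by_cases z0 : z = 0
  · obtain ⟨l, rfl⟩ : ∃ k, l = k + 1 := ⟨l - 1, by rcases hz with hz | hz; exact absurd z0 hz; omega⟩
    have := ((w1 hF h 1 z).trans hF (w2 hn hF h (z := z - (1 : ℕ)) (by simp [z0]) c)).trans hF
      (w1 hF h l _)
    rwa [show 1 + c * (n - 1) + l = c * (n - 1) + (l + 1) by ring,
      show z - (1 : ℕ) - (l : ℕ) = z - ((l + 1 : ℕ) : ZMod n) by push_cast; ring] at this
  · exact (w2 hn hF h z0 c).trans hF (w1 hF h l z)

theorem exc (z : ZMod n) : ∃ c : ℕ, c ≤ n - 1 ∧ z = c :=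
  ⟨z.val, by have := ZMod.val_lt z; omega, by simp⟩

theorem castN : (((n - 1) ^ 2 : ℕ) : ZMod n) = 1 := by push_cast [cast_pred]; ring

theorem tight (hn : 2 ≤ n) (hF : Monotone F) (h : ∀ i j, σ i ∈ F {σ j} ↔ W i j)
    (hv : F^[(n - 1) ^ 2] {σ 0} ≠ Set.univ) {k : ℕ} (k1 : 1 ≤ k) (k2 : k ≤ (n - 1) ^ 2)
    {z : ZMod n} (hz : Wk F k (σ 0) (σ z)) : z ∈ S n k := by
  have : Fact (1 < n) := ⟨hn⟩
  have v0 : ¬ Wk F ((n - 1) ^ 2) (σ 0) (σ 0) := fun a => hv (Set.eq_univ_of_forall fun u => by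
    obtain ⟨y, rfl⟩ := σ.surjective u
    by_cases y0 : y = 0
    · exact y0 ▸ a
    obtain ⟨c, c1, c2⟩ := exc (-1 - y)
    have c3 : c ≠ n - 1 := fun e => y0 (by rw [e, cast_pred] at c2; linear_combination -c2)
    have lt : c * (n - 1) < (n - 1) ^ 2 := by
      rw [pow_two]; exact Nat.mul_lt_mul_of_pos_right (by omega) (by omega)
    have := w3 hn hF h (z := 0) lt.le (Or.inr lt)
    rwa [castN, ← c2, show (0 : ZMod n) - 1 - (-1 - y) = y by ring] at this)
  obtain ⟨c, c1, c2⟩ := exc (-(k : ZMod n) - z)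
  refine ⟨c, lt_of_not_ge fun ge => v0 ?_, by linear_combination -c2⟩
  obtain ⟨e, he⟩ := Nat.exists_eq_add_of_le c1
  have sq : (n - 1) ^ 2 = c * (n - 1) + e * (n - 1) := by rw [pow_two, ← add_mul, ← he]
  by_cases b : z ≠ 0 ∨ e * (n - 1) < (n - 1) ^ 2 - k
  · have := hz.trans hF (w3 hn hF h (by omega) b)
    have ce : (c : ZMod n) + e = -1 := by rw [← cast_pred, he]; push_cast; ring
    rwa [Nat.add_sub_cancel' k2, Nat.cast_sub k2, castN,
      show z - (1 - k) - e = 0 by linear_combination -c2 - ce] at this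
  · push Not at b
    have m1 : F^[1] {σ 0} ⊆ F^[1 + e * (n - 1)] {σ 0} := fun u hu => by
      obtain ⟨y, rfl⟩ := σ.surjective u
      have y1 : y = -1 := by
        rcases (h y 0).1 hu with a | a
        · linear_combination -a
        · exact a.1
      exact Wk.trans hF hu (w2 hn hF h (by simp [y1]) e)
    have := hF.iterate (k - 1) m1
    rw [← iterate_add_apply, ← iterate_add_apply, show k - 1 + 1 = k by omega,
      show k - 1 + (1 + e * (n - 1)) = (n - 1) ^ 2 by omega] at this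
    exact this (b.1 ▸ hz)

end wiel

end comb

/-- support dynamics -/
def Fs {n d : ℕ} (A : Fin n → (Fin d → Fin n) → ℝ) (X : Set (Fin n)) : Set (Fin n) :=
  {u | ∃ I, (∀ t, I t ∈ X) ∧ 0 < A u I}

variable {n d : ℕ} {A : Fin n → (Fin d → Fin n) → ℝ}

theorem Fs_mono : Monotone (Fs A) := fun _ _ h _ ⟨I, a, b⟩ => ⟨I, fun t => h (a t), b⟩

theorem supp (hd : 1 ≤ d) (hA : ∀ i I, 0 ≤ A i I) {x : Fin n → ℝ} (hx : 0 ≤ x) (r : ℕ) :
    0 ≤ (T A)^[r] x ∧ {i | 0 < (T A)^[r] x i} = (Fs A)^[r] {i | 0 < x i} := by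
  induction r with
  | zero => exact ⟨hx, rfl⟩
  | succ r ih =>
    rw [iterate_succ_apply', iterate_succ_apply', ← ih.2]
    generalize (T A)^[r] x = y at ih
    have nn : ∀ i I, 0 ≤ A i I * ∏ t, y (I t) := fun i I =>
      mul_nonneg (hA i I) (Finset.prod_nonneg fun t _ => ih.1 _)
    refine ⟨fun i => Real.rpow_nonneg (Finset.sum_nonneg fun I _ => nn i I) _, Set.ext fun i => ?_⟩
    have pw : 0 < T A y i ↔ 0 < ∑ I : Fin d → Fin n, A i I * ∏ t, y (I t) := by
      refine ⟨fun h => lt_of_le_of_ne (Finset.sum_nonneg fun I _ => nn i I) fun e => ?_,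
        fun h => Real.rpow_pos_of_pos h _⟩
      rw [T, ← e, Real.zero_rpow (by positivity)] at h
      exact lt_irrefl _ h
    simp only [Set.mem_setOf_eq, Fs]
    rw [pw, Finset.sum_pos_iff_of_nonneg fun I _ => nn i I]
    refine exists_congr fun I => ⟨fun ⟨_, h⟩ => ⟨fun t => lt_of_le_of_ne (ih.1 _) fun e => ?_,
      lt_of_le_of_ne (hA i I) fun e => ?_⟩,
      fun ⟨a, b⟩ => ⟨Finset.mem_univ _, mul_pos b (Finset.prod_pos fun t _ => a t)⟩⟩
    · rw [Finset.prod_eq_zero (Finset.mem_univ t) e.symm, mul_zero] at h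
      exact lt_irrefl _ h
    · rw [← e, zero_mul] at h
      exact lt_irrefl _ h

theorem good_iff (hd : 1 ≤ d) (hA : ∀ i I, 0 ≤ A i I) (r : ℕ) :
    Good A r ↔ ∀ j, (Fs A)^[r] {j} = Set.univ := by
  constructor
  · intro h j
    have nn : 0 ≤ (Pi.single j 1 : Fin n → ℝ) := Pi.single_nonneg.2 zero_le_one
    have e : {i | 0 < (Pi.single j 1 : Fin n → ℝ) i} = {j} := by
      ext i
      by_cases c : i = j <;> simp [Pi.single_apply, c]
    rw [← e, ← (supp hd hA nn r).2]
    exact Set.eq_univ_of_forall (h _ nn (by simp))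
  · intro h x hx x0 i
    obtain ⟨j, hj⟩ := Function.ne_iff.1 x0
    have : i ∈ (Fs A)^[r] {i | 0 < x i} := Fs_mono.iterate r
      (Set.singleton_subset_iff.2 (show 0 < x j from lt_of_le_of_ne (hx j) (Ne.symm hj)))
      (h j ▸ Set.mem_univ i)
    rwa [← (supp hd hA hx r).2] at this

theorem single_iff (u j : Fin n) : u ∈ Fs A {j} ↔ 0 < A u fun _ => j :=
  ⟨fun ⟨I, a, b⟩ => by rwa [← show I = fun _ => j from funext a], fun h => ⟨_, fun _ => rfl, h⟩⟩

theorem result (n d : ℕ) (hn : 2 ≤ n) (hd : 1 ≤ d) (A : Fin n → (Fin d → Fin n) → ℝ)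
    (hA : ∀ i I, 0 ≤ A i I) :
    IsLeast {r | 0 < r ∧ Good A r} ((n - 1) ^ 2 + 1) ↔
      ∃ σ : ZMod n ≃ Fin n, (∀ i j, (0 < A (σ i) fun _ => σ j) ↔ W i j) ∧
        ∀ k, 1 ≤ k → k < (n - 1) ^ 2 → ∀ (u : ZMod n) (I : Fin d → ZMod n),
          (∀ t, I t ∈ S n k) → (0 < A (σ u) fun t => σ (I t)) → u ∈ S n (k + 1) := by
  have : NeZero n := ⟨by omega⟩
  have N1 : 0 < (n - 1) ^ 2 := pow_pos (by omega) _
  constructor
  · rintro ⟨⟨-, g⟩, l⟩
    have : ¬ Good A ((n - 1) ^ 2) := fun c => by have := l ⟨N1, c⟩; omega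
    rw [good_iff hd hA] at g this
    push Not at this
    obtain ⟨v, hv⟩ := this
    have h0 : Fs A ∅ = ∅ := Set.eq_empty_of_forall_notMem fun u ⟨I, a, _⟩ => a ⟨0, hd⟩
    obtain ⟨p, p0, inj, -, e⟩ := struct (Fintype.card_fin n) hn Fs_mono h0 g hv
    obtain ⟨σ, s0, h⟩ := label hn (E := fun x y => y ∈ Fs A {x}) inj e
    refine ⟨σ, fun i j => by rw [← h, single_iff], fun k k1 k2 u I hI a => ?_⟩
    refine tight hn Fs_mono h (by rwa [s0, p0]) (by omega) k2 ?_
    rw [Wk, iterate_succ_apply']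
    refine ⟨_, fun t => ?_, a⟩
    obtain ⟨c, c1, c2⟩ := hI t
    have := w3 hn Fs_mono h (z := 0) c1.le (Or.inr c1)
    rwa [show (0 : ZMod n) - k - c = I t by rw [c2]; ring] at this
  · rintro ⟨σ, h, H⟩
    simp only [← single_iff] at h
    refine ⟨⟨by omega, (good_iff hd hA _).2 fun j => Set.eq_univ_of_forall fun u => ?_⟩,
      fun r ⟨r0, g⟩ => Nat.succ_le_of_lt (lt_of_not_ge fun le => ?_)⟩
    · obtain ⟨z, rfl⟩ := σ.surjective j
      obtain ⟨y, rfl⟩ := σ.surjective u
      obtain ⟨c, c1, c2⟩ := exc (z - 2 - y)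
      have lt : c * (n - 1) < (n - 1) ^ 2 + 1 := by
        rw [pow_two]; exact Nat.lt_succ_of_le (Nat.mul_le_mul_right _ c1)
      have := w3 hn Fs_mono h (z := z) lt.le (Or.inr lt)
      rwa [Nat.cast_add, castN, ← c2, show z - (1 + (1 : ℕ)) - (z - 2 - y) = y by push_cast; ring]
        at this
    · have key : ∀ k, k + 1 ≤ (n - 1) ^ 2 → ∀ z, σ z ∈ (Fs A)^[k + 1] {σ 0} → z ∈ S n (k + 1) := by
        intro k
        induction k with
        | zero =>
          intro _ z hz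
          refine ⟨0, by simp, ?_⟩
          rcases (h z 0).1 hz with a | a
          · push_cast; linear_combination -a
          · simp [a.1]
        | succ k ih =>
          intro hk z hz
          rw [iterate_succ_apply'] at hz
          obtain ⟨I, a, b⟩ := hz
          exact H (k + 1) (by omega) hk z (fun t => σ.symm (I t))
            (fun t => ih (by omega) _ (by simpa using a t)) (by simpa using b)
      obtain ⟨k, rfl⟩ : ∃ k, r = k + 1 := ⟨r - 1, by omega⟩
      obtain ⟨c, c1, c2⟩ := key k le (-(((k + 1 : ℕ) : ZMod n) + (n - 1 : ℕ)))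
        ((good_iff hd hA _).1 g _ ▸ Set.mem_univ _)
      have c3 : c < n - 1 := by
        by_contra q
        have := Nat.mul_le_mul_right (n - 1) (not_lt.1 q)
        rw [← pow_two] at this
        omega
      have := congrArg ZMod.val (add_left_cancel (neg_injective c2))
      rw [ZMod.val_cast_of_lt (by omega), ZMod.val_cast_of_lt (by omega)] at this
      omega

end Pool.Agent.Results.MP_9d720b_co.Full
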